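import Mathlib
import Pool.Agent.J4.H8.Color
import Pool.Agent.J4.H8.ColorSimple

set_option autoImplicit false

namespace Pool.Agent.Results.MP_52e257_al.ColourAlgebra

open Pool.Agent.J4.H8.Color

/-- A noncommutative Jordan algebra: flexible, and `(x², y, x) = 0`. -/
def IsNoncommutativeJordan (A : Type) [NonAssocRing A] : Prop :=
  (∀ x y : A, (x * y) * x = x * (y * x)) ∧
    ∀ x y : A, ((x * x) * y) * x = (x * x) * (y * x)

/-- The identity `([x, y], y, y) = 0`. -/
def CommutatorIdentity (A : Type) [NonAssocRing A] : Prop :=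
  ∀ x y : A, ((x * y - y * x) * y) * y = (x * y - y * x) * (y * y)

/-- Alternative: `(x, x, y) = (y, x, x) = 0`. -/
def IsAlternativeAlgebra (A : Type) [NonAssocRing A] : Prop :=
  ∀ x y : A, (x * x) * y = x * (x * y) ∧ (y * x) * x = y * (x * x)

/-- Jordan: commutative, and `(x², y, x) = 0`. -/
def IsJordanAlgebra (A : Type) [NonAssocRing A] : Prop :=
  (∀ x y : A, x * y = y * x) ∧ ∀ x y : A, ((x * x) * y) * x = (x * x) * (y * x)

/-- Simple as an algebra over `F`: some product is nonzero and the only two-sided ideals are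
`0` and `A`. -/
def IsSimpleAlgebra (F A : Type) [Field F] [NonAssocRing A] [Module F A] : Prop :=
  (∃ x y : A, x * y ≠ 0) ∧
    ∀ I : Submodule F A, (∀ x ∈ I, ∀ y : A, x * y ∈ I ∧ y * x ∈ I) → I = ⊥ ∨ I = ⊤

/-- Over every field `F` in which `2 ≠ 0` there is a simple unital noncommutative Jordan algebra
of infinite dimension which satisfies `([x, y], y, y) = 0` and is neither alternative nor
Jordan. -/
theorem result (F : Type) [Field F] (h2 : (2 : F) ≠ 0) :
    ∃ (A : Type) (_ : NonAssocRing A) (_ : Module F A) (_ : IsScalarTower F A A)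
      (_ : SMulCommClass F A A),
      ¬ Module.Finite F A ∧ IsSimpleAlgebra F A ∧ IsNoncommutativeJordan A ∧
        CommutatorIdentity A ∧ ¬ IsAlternativeAlgebra A ∧ ¬ IsJordanAlgebra A := by
  have h2K : (2 : RatFunc F) ≠ 0 := by
    have h := (algebraMap F (RatFunc F)).injective.ne h2
    rwa [map_ofNat, map_zero] at h
  refine ⟨Col (RatFunc F), inferInstance, inferInstance, inferInstance, inferInstance,
    not_finite F (RatFunc F) (not_finite_ratFunc F), ⟨⟨1, 1, ?_⟩, ?_⟩, ⟨flexible, jordan⟩,
    comm_identity, ?_, ?_⟩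
  · intro h
    have h0 := congrFun h 0
    rw [mul_one] at h0
    exact one_ne_zero h0
  · intro I hI
    by_cases hbot : I = ⊥
    · exact Or.inl hbot
    · right
      obtain ⟨x, hx, hx0⟩ := Submodule.exists_mem_ne_zero_of_ne_bot hbot
      have h1 := one_mem_of_ne h2K I.toAddSubgroup hI x hx hx0
      rw [Submodule.eq_top_iff']
      intro y
      have h3 := (hI 1 h1 y).1
      rwa [one_mul] at h3
  · intro h
    -- `x = e₁ + f₂`, `y = e₂`
    have h1 := (h (mk 0 1 0 0 0 1 0 : Col (RatFunc F)) (mk 0 0 1 0 0 0 0)).1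
    have h3 := congrFun h1 1
    simp at h3
    have h4 : (1 : RatFunc F) = 0 := by linear_combination h3
    exact one_ne_zero h4
  · intro h
    have h1 := h.1 (mk 0 1 0 0 0 0 0 : Col (RatFunc F)) (mk 0 0 1 0 0 0 0)
    have h3 := congrFun h1 6
    simp at h3
    apply h2K
    linear_combination h3

end Pool.Agent.Results.MP_52e257_al.ColourAlgebra
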